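import Pool.Agent.Work.MP_260e18_an.Construct

open MeasureTheory Complex SchwartzMap FourierTransform
open scoped Real ContDiff BoundedContinuousFunction

namespace Pool.Agent.Work.MP_260e18_an

/-- Phase of a point of a cluster. -/
noncomputable def ph (τ : ℝ) : ℂ := Complex.exp (↑(-2 * π * τ) * Complex.I)

theorem norm_ph (τ : ℝ) : ‖ph τ‖ = 1 := Complex.norm_exp_ofReal_mul_I _

theorem ph_eq (τ : ℝ) : ph τ = Real.cos (2 * π * τ) - Real.sin (2 * π * τ) * Complex.I := by
  rw [ph, Complex.exp_mul_I, ← Complex.ofReal_cos, ← Complex.ofReal_sin]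
  have h1 : -2 * π * τ = -(2 * π * τ) := by ring
  rw [h1, Real.cos_neg, Real.sin_neg]
  push_cast
  ring

/-- The phases of a cluster sum up to minus the parameter. -/
theorem phase_sum (m : ℤ) (z : ℂ) (hz : ‖z‖ ≤ 1 / 4) :
    ∑ q : Fin 6, cc m q * ph (T q z) = -z := by
  have h1 := g_sin z.im ((Complex.abs_im_le_norm z).trans hz)
  have h2 := g_sin z.re ((Complex.abs_re_le_norm z).trans hz)
  have hc : ∀ q : Fin 6, q.1 < 4 → cc m q = 1 := fun q hq => by simp [cc, hq]
  have hc4 : cc m 4 = cc m 5 := by simp [cc]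
  have e0 : ph (T 0 z) + ph (T 1 z) = -(z.im * Complex.I) := by
    rw [ph_eq, ph_eq]
    simp only [T, Matrix.cons_val_zero, Matrix.cons_val_one]
    have a1 : 2 * π * (1 / 2 - g z.im) = π - 2 * π * g z.im := by ring
    rw [a1, Real.cos_pi_sub, Real.sin_pi_sub]
    have a2 : (z.im : ℂ) = ((2 * Real.sin (2 * π * g z.im) : ℝ) : ℂ) := by rw [h1]
    rw [a2]
    push_cast
    ring
  have e1 : ph (T 2 z) + ph (T 3 z) = -(z.re : ℂ) := by
    rw [ph_eq, ph_eq]
    simp only [T, Matrix.cons_val]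
    have a1 : 2 * π * (1 / 4 + g z.re) = 2 * π * g z.re + π / 2 := by ring
    have a3 : 2 * π * (3 / 4 - g z.re) = (π / 2 - 2 * π * g z.re) + π := by ring
    rw [a1, a3, Real.cos_add_pi_div_two, Real.sin_add_pi_div_two, Real.cos_add_pi,
      Real.sin_add_pi, Real.cos_pi_div_two_sub, Real.sin_pi_div_two_sub]
    have a2 : (z.re : ℂ) = ((2 * Real.sin (2 * π * g z.re) : ℝ) : ℂ) := by rw [h2]
    rw [a2]
    push_cast
    ring
  have e2 : ph (T 4 z) + ph (T 5 z) = 0 := by
    rw [ph_eq, ph_eq]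
    simp only [T, Matrix.cons_val]
    have a1 : 2 * π * (1 : ℝ) = 2 * π := by ring
    have a3 : 2 * π * (3 / 2 : ℝ) = π + 2 * π := by ring
    rw [a1, a3, Real.cos_two_pi, Real.sin_two_pi, Real.cos_add_two_pi, Real.sin_add_two_pi,
      Real.cos_pi, Real.sin_pi]
    push_cast
    ring
  rw [Fin.sum_univ_six, hc 0 (by decide), hc 1 (by decide), hc 2 (by decide), hc 3 (by decide),
    hc4]
  have e3 : 1 * ph (T 0 z) + 1 * ph (T 1 z) + 1 * ph (T 2 z) + 1 * ph (T 3 z) +
      cc m 5 * ph (T 4 z) + cc m 5 * ph (T 5 z) = (ph (T 0 z) + ph (T 1 z)) +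
      (ph (T 2 z) + ph (T 3 z)) + cc m 5 * (ph (T 4 z) + ph (T 5 z)) := by ring
  rw [e3, e0, e1, e2]
  conv_rhs => rw [← Complex.re_add_im z]
  ring

theorem hasSum_diff (x : ℝ) (m : ℤ) (t : ℝ) :
    HasSum (fun n : ℤ => (sig (((n - m : ℤ) : ℝ) - t) - sig ((n - m : ℤ) : ℝ)) * ker (x - n))
      (ker (x - m - t) - ker (x - m)) := by
  have h1 := hasSum_sampling x (-(m + t))
  have h2 := hasSum_sampling x (-(m : ℝ))
  have h3 := h1.sub h2
  have e1 : x + -((m : ℝ) + t) = x - m - t := by ring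
  have e2 : x + -(m : ℝ) = x - m := by ring
  rw [e1, e2] at h3
  have h4 : (fun n : ℤ => (sig (((n - m : ℤ) : ℝ) - t) - sig ((n - m : ℤ) : ℝ)) * ker (x - n)) =
      fun b : ℤ => sig (-((m : ℝ) + t) + b) * ker (x - b) - sig (-(m : ℝ) + b) * ker (x - b) := by
    funext n
    have e3 : -((m : ℝ) + t) + (n : ℝ) = ((n - m : ℤ) : ℝ) - t := by push_cast; ring
    have e4 : -(m : ℝ) + (n : ℝ) = ((n - m : ℤ) : ℝ) := by push_cast; ring
    rw [e3, e4]
    ring
  rw [h4]
  exact h3

theorem ker_shift_bound : ∃ A : ℝ, 0 < A ∧ ∀ (x t : ℝ) (m : ℤ), |t| ≤ 1 →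
    ‖ker (x - m - t)‖ ≤ A * (1 / (1 + ((m : ℝ) + -x) ^ 2)) := by
  obtain ⟨A, hA, h⟩ := schwartz_bound ker
  refine ⟨3 * A, by positivity, fun x t m ht => (h _).trans ?_⟩
  rw [mul_one_div, div_le_div_iff₀ (by positivity) (by positivity)]
  have h1 : t ^ 2 ≤ 1 := by
    rw [← sq_abs]; nlinarith [abs_nonneg t]
  have h2 : 1 + ((m : ℝ) + -x) ^ 2 ≤ 3 * (1 + (x - m - t) ^ 2) := by
    nlinarith [sq_nonneg ((x - m - t) - t)]
  nlinarith

/-- The scaled and twisted value of the tile at a point of the configuration. -/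
noncomputable def av (L : ℕ) (r : ℤ → ℂ) (x : ℝ) (p : ℤ × Fin 6) : ℂ :=
  cc p.1 p.2 * (ph (T p.2 (r p.1)) * ker (x - p.1 - T p.2 (r p.1) / L))

theorem T_div (L : ℕ) (hL : 4 ≤ L) (q : Fin 6) (z : ℂ) : |T q z / L| ≤ 1 := by
  have hL' : (4 : ℝ) ≤ L := by exact_mod_cast hL
  have hL0 : (0 : ℝ) < L := by linarith
  rw [abs_div, abs_of_pos hL0, div_le_one hL0]
  linarith [T_bound q z]

theorem summable_av (L : ℕ) (hL : 4 ≤ L) (r : ℤ → ℂ) (x : ℝ) :
    Summable fun p : ℤ × Fin 6 => ‖av L r x p‖ := by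
  obtain ⟨A, hA, h⟩ := ker_shift_bound
  have hb : ∀ p : ℤ × Fin 6, ‖av L r x p‖ ≤ A * (1 / (1 + ((p.1 : ℝ) + -x) ^ 2)) := by
    intro p
    rw [av, norm_mul, norm_mul, norm_ph, one_mul]
    calc _ ≤ 1 * (A * (1 / (1 + ((p.1 : ℝ) + -x) ^ 2))) :=
          mul_le_mul (norm_cc_le _ _) (h x _ p.1 (T_div L hL _ _)) (norm_nonneg _) zero_le_one
      _ = _ := one_mul _
  refine Summable.of_nonneg_of_le (fun p => norm_nonneg _) hb ?_
  have h1 : Summable fun m : ℤ => A * (1 / (1 + ((m : ℝ) + -x) ^ 2)) :=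
    (summable_weight (-x)).mul_left A
  have h2 : Summable fun _ : Fin 6 => (1 : ℝ) := Summable.of_finite
  have h3 := h1.mul_of_nonneg h2 (fun m => by positivity) (fun _ => zero_le_one)
  simpa using h3

theorem sum_av (L : ℕ) (hL : 4 ≤ L) (r : ℤ → ℂ) (hr : ∀ n, ‖r n‖ ≤ 1 / 4) (x : ℝ) (m : ℤ) :
    ∑ q : Fin 6, av L r x (m, q) = -r m * ker (x - m) +
      ∑' n : ℤ, term L m (r m) (n - m) * ker (x - n) := by
  have h1 : ∀ q : Fin 6, HasSum (fun n : ℤ => cc m q * psi L (T q (r m)) ((n - m : ℤ) : ℝ) *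
      ker (x - n)) (cc m q * (ph (T q (r m)) * (ker (x - m - T q (r m) / L) - ker (x - m)))) := by
    intro q
    have h2 := ((hasSum_diff x m (T q (r m) / L)).mul_left (ph (T q (r m)))).mul_left (cc m q)
    have h3 : (fun n : ℤ => cc m q * psi L (T q (r m)) ((n - m : ℤ) : ℝ) * ker (x - n)) =
        fun n : ℤ => cc m q * (ph (T q (r m)) *
          ((sig (((n - m : ℤ) : ℝ) - T q (r m) / L) - sig ((n - m : ℤ) : ℝ)) * ker (x - n))) := by
      funext n
      rw [psi, ph]
      ring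
    rw [h3]
    exact h2
  have h3 := hasSum_sum (s := (Finset.univ : Finset (Fin 6))) (fun q _ => h1 q)
  have h4 : ∑' n : ℤ, term L m (r m) (n - m) * ker (x - n) =
      ∑ q : Fin 6, cc m q * (ph (T q (r m)) * (ker (x - m - T q (r m) / L) - ker (x - m))) := by
    rw [← h3.tsum_eq]
    congr 1
    ext n
    rw [term, Finset.sum_mul]
  rw [h4]
  have h5 : ∀ q : Fin 6, cc m q * (ph (T q (r m)) * (ker (x - m - T q (r m) / L) - ker (x - m))) =
      av L r x (m, q) - cc m q * ph (T q (r m)) * ker (x - m) := by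
    intro q
    rw [av]
    ring
  simp_rw [h5]
  rw [Finset.sum_sub_distrib, ← Finset.sum_mul, phase_sum m (r m) (hr m)]
  ring

theorem tsum_av (L : ℕ) (hL : 4 ≤ L) (r : ℤ → ℂ) (hr : ∀ n, ‖r n‖ ≤ 1 / 4)
    (hfix : ∀ n : ℤ, r n = ∑' m : ℤ, term L m (r m) (n - m)) (x : ℝ) :
    ∑' p : ℤ × Fin 6, av L r x p = 0 := by
  obtain ⟨B, hB, hterm⟩ := term_bounds
  obtain ⟨A, hA, hk⟩ := ker_shift_bound
  have hL2 : 2 ≤ L := by omega
  have hL' : (4 : ℝ) ≤ L := by exact_mod_cast hL
  have hL0 : (0 : ℝ) < L := by linarith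
  have hk0 : ∀ n : ℤ, ‖ker (x - n)‖ ≤ A * (1 / (1 + ((n : ℝ) + -x) ^ 2)) := by
    intro n
    have := hk x 0 n (by simp)
    simpa using this
  have hks : Summable fun n : ℤ => A * (1 / (1 + ((n : ℝ) + -x) ^ 2)) :=
    (summable_weight (-x)).mul_left A
  have hksum : Summable fun n : ℤ => ‖ker (x - n)‖ :=
    Summable.of_nonneg_of_le (fun n => norm_nonneg _) hk0 hks
  -- double summability
  have hdouble : Summable (Function.uncurry fun m n : ℤ =>
      term L m (r m) (n - m) * ker (x - n)) := by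
    have h1 : Summable fun j : ℤ => B / L * (1 / (1 + (j : ℝ) ^ 2)) := summable_w.mul_left _
    have h2 := h1.mul_of_nonneg hks (fun j => by positivity) (fun n => by positivity)
    let e : ℤ × ℤ ≃ ℤ × ℤ :=
      { toFun := fun p => (p.2 - p.1, p.2)
        invFun := fun p => (p.2 - p.1, p.2)
        left_inv := fun p => by simp
        right_inv := fun p => by simp }
    have h3 := (e.summable_iff).2 h2
    refine Summable.of_norm_bounded h3 ?_
    rintro ⟨m, n⟩
    simp only [Function.uncurry, Function.comp, e, Equiv.coe_fn_mk]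
    rw [norm_mul]
    exact mul_le_mul (hterm L hL2 m (n - m) (r m) (r m)).1 (hk0 n) (norm_nonneg _)
      (by positivity)
  have h0 : Summable fun p : ℤ × Fin 6 => av L r x p := (summable_av L hL r x).of_norm
  rw [h0.tsum_prod]
  have h1 : ∀ m : ℤ, ∑' q : Fin 6, av L r x (m, q) = -r m * ker (x - m) +
      ∑' n : ℤ, term L m (r m) (n - m) * ker (x - n) := by
    intro m
    rw [tsum_fintype]
    exact sum_av L hL r hr x m
  simp_rw [h1]
  have hs1 : Summable fun m : ℤ => -r m * ker (x - m) := by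
    refine Summable.of_norm_bounded (hksum.mul_left (1 / 4)) fun m => ?_
    rw [norm_mul, norm_neg]
    exact mul_le_mul_of_nonneg_right (hr m) (norm_nonneg _)
  have hs2 : Summable fun m : ℤ => ∑' n : ℤ, term L m (r m) (n - m) * ker (x - n) :=
    hdouble.prod
  rw [hs1.tsum_add hs2, ← hdouble.tsum_comm]
  have h2 : ∀ n : ℤ, ∑' m : ℤ, term L m (r m) (n - m) * ker (x - n) = r n * ker (x - n) := by
    intro n
    rw [tsum_mul_right, ← hfix n]
  simp_rw [h2]
  have hs3 : Summable fun m : ℤ => r m * ker (x - m) := by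
    refine hs1.neg.congr fun m => ?_
    ring
  rw [← hs1.tsum_add hs3]
  have h3 : ∀ m : ℤ, -r m * ker (x - m) + r m * ker (x - m) = 0 := fun m => by ring
  simp_rw [h3]
  exact tsum_zero

/-- The tiling identity, term by term. -/
theorem tile_eq (L : ℕ) (hL : 4 ≤ L) (r : ℤ → ℂ) (x : ℝ) (p : ℤ × Fin 6) :
    idx.indicator (fun p => tile L (x - pos L r p)) p =
      Complex.exp (↑(2 * π * x) * Complex.I) * av L r (x / L) p := by
  have hL0 : (L : ℝ) ≠ 0 := by
    have : 0 < L := by omega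
    exact_mod_cast this.ne'
  obtain ⟨m, q⟩ := p
  by_cases hp : ((m, q) : ℤ × Fin 6) ∈ idx
  · rw [Set.indicator_of_mem hp]
    have hc : cc m q = 1 := by
      simp only [cc]
      exact if_pos hp
    rw [av, tile, hc, one_mul, ← mul_assoc, ph]
    congr 1
    · have h1 : (↑(2 * π * (x - pos L r (m, q))) : ℂ) * Complex.I =
          ↑(2 * π * x) * Complex.I + ↑(-2 * π * T q (r m)) * Complex.I +
            ((-(L * m : ℤ) : ℤ) : ℂ) * (2 * π * Complex.I) := by
        rw [pos]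
        push_cast
        ring
      rw [h1, Complex.exp_add, Complex.exp_add, Complex.exp_int_mul_two_pi_mul_I, mul_one]
    · congr 1
      rw [pos]
      field_simp
      ring
  · rw [Set.indicator_of_notMem hp]
    have hc : cc m q = 0 := by
      simp only [cc]
      exact if_neg hp
    rw [av, hc]
    ring

theorem tiling (L : ℕ) (hL : 4 ≤ L) (r : ℤ → ℂ) (hr : ∀ n, ‖r n‖ ≤ 1 / 4)
    (hfix : ∀ n : ℤ, r n = ∑' m : ℤ, term L m (r m) (n - m)) (x : ℝ) :
    Summable (fun l : Lam L r => ‖tile L (x - (l : ℝ))‖) ∧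
      ∑' l : Lam L r, tile L (x - (l : ℝ)) = 0 := by
  have hinj : Set.InjOn (pos L r) idx := (pos_inj L hL r).injOn
  constructor
  · have h1 : Summable (idx.indicator fun p => ‖tile L (x - pos L r p)‖) := by
      refine (summable_av L hL r (x / L)).congr fun p => ?_
      have h2 : idx.indicator (fun p => ‖tile L (x - pos L r p)‖) p =
          ‖idx.indicator (fun p => tile L (x - pos L r p)) p‖ := by
        rw [norm_indicator_eq_indicator_norm]
      rw [h2, tile_eq L hL r x p, norm_mul, Complex.norm_exp_ofReal_mul_I, one_mul]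
    have h3 := summable_subtype_iff_indicator.2 h1
    have h4 := (Equiv.Set.imageOfInjOn (pos L r) idx hinj).symm.summable_iff.2 h3
    refine h4.congr fun l => ?_
    simp only [Function.comp]
    congr 3
    have h5 := (Equiv.Set.imageOfInjOn (pos L r) idx hinj).apply_symm_apply l
    exact congrArg Subtype.val h5
  · have h1 := tsum_image (fun y => tile L (x - y)) hinj
    have h2 := tsum_subtype idx (fun p => tile L (x - pos L r p))
    calc ∑' l : Lam L r, tile L (x - (l : ℝ)) = ∑' p : idx, tile L (x - pos L r p) := h1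
      _ = ∑' p : ℤ × Fin 6, idx.indicator (fun p => tile L (x - pos L r p)) p := h2
      _ = ∑' p : ℤ × Fin 6, Complex.exp (↑(2 * π * x) * Complex.I) * av L r (x / L) p := by
        congr 1
        ext p
        exact tile_eq L hL r x p
      _ = 0 := by rw [tsum_mul_left, tsum_av L hL r hr hfix, mul_zero]

end Pool.Agent.Work.MP_260e18_an
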