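import Pool.Agent.Work.MP_260e18_an.Fixed

open MeasureTheory Complex SchwartzMap FourierTransform
open scoped Real ContDiff BoundedContinuousFunction

namespace Pool.Agent.Work.MP_260e18_an

theorem T_range (q : Fin 6) (z : ℂ) : -(1 / 16) ≤ T q z ∧ T q z ≤ 3 / 2 := by
  have h1 := abs_le.1 (g_bound z.im)
  have h2 := abs_le.1 (g_bound z.re)
  fin_cases q <;> simp only [T] <;> constructor <;> simp <;> linarith

theorem T_inj (q q' : Fin 6) (z : ℂ) (h : T q z = T q' z) : q = q' := by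
  have h1 := abs_le.1 (g_bound z.im)
  have h2 := abs_le.1 (g_bound z.re)
  fin_cases q <;> fin_cases q' <;> simp [T] at h ⊢ <;> linarith

/-- Positions of the points. -/
noncomputable def pos (L : ℕ) (r : ℤ → ℂ) (p : ℤ × Fin 6) : ℝ := L * p.1 + T p.2 (r p.1)

theorem pos_inj (L : ℕ) (hL : 4 ≤ L) (r : ℤ → ℂ) : Function.Injective (pos L r) := by
  rintro ⟨m, q⟩ ⟨m', q'⟩ h
  simp only [pos] at h
  have h1 := T_range q (r m)
  have h2 := T_range q' (r m')
  have hL' : (4 : ℝ) ≤ L := by exact_mod_cast hL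
  have hm : m = m' := by
    by_contra hne
    rcases lt_or_gt_of_ne hne with hlt | hlt
    · have h3 : (m : ℝ) + 1 ≤ m' := by exact_mod_cast hlt
      nlinarith
    · have h3 : (m' : ℝ) + 1 ≤ m := by exact_mod_cast hlt
      nlinarith
  subst hm
  have hq : q = q' := T_inj q q' (r m) (by linarith)
  rw [hq]

/-- Index set of the points that are present. -/
def idx : Set (ℤ × Fin 6) := {p | p.2.1 < 4 ∨ 0 ≤ p.1}

/-- The translation set. -/
noncomputable def Lam (L : ℕ) (r : ℤ → ℂ) : Set ℝ := pos L r '' idx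

/-- The tile. -/
noncomputable def tile (L : ℕ) (x : ℝ) : ℂ :=
  Complex.exp (↑(2 * π * x) * Complex.I) * ker (x / L)

theorem continuous_tile (L : ℕ) : Continuous (tile L) := by
  unfold tile
  refine Continuous.mul (by fun_prop) (ker.continuous.comp (by fun_prop))

theorem norm_tile (L : ℕ) (x : ℝ) : ‖tile L x‖ = ‖ker (x / L)‖ := by
  rw [tile, norm_mul, Complex.norm_exp_ofReal_mul_I, one_mul]

theorem integrable_tile (L : ℕ) (hL : 4 ≤ L) : Integrable (tile L) volume := by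
  have hL0 : (L : ℝ) ≠ 0 := by
    have : 0 < L := by omega
    exact_mod_cast this.ne'
  have h1 : Integrable (fun x : ℝ => ker (x / L)) volume := ker.integrable.comp_div hL0
  refine h1.norm.mono' (continuous_tile L).aestronglyMeasurable ?_
  exact Filter.Eventually.of_forall fun x => (norm_tile L x).le

theorem ker_zero_ne : ker 0 ≠ 0 := by
  have h1 : ker 0 = ((∫ v : ℝ, bumpIn v : ℝ) : ℂ) := by
    rw [ker_apply, ← integral_complex_ofReal]
    congr 1
    ext v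
    simp [toS_apply]
  rw [h1]
  have h2 : 0 < ∫ v : ℝ, bumpIn v := bumpIn.integral_pos
  exact_mod_cast h2.ne'

theorem tile_not_ae_zero (L : ℕ) : ¬ (tile L =ᵐ[volume] 0) := by
  intro h
  have h1 : tile L = 0 := (Continuous.ae_eq_iff_eq volume (continuous_tile L)
    continuous_zero).1 h
  have h2 : tile L 0 = 0 := by rw [h1]; rfl
  rw [tile] at h2
  simp at h2
  exact ker_zero_ne h2

/-! ### Counting -/

theorem mem_window (L : ℕ) (hL : 4 ≤ L) (r : ℤ → ℂ) (a b : ℤ) (p : ℤ × Fin 6) :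
    pos L r p ∈ Set.Ico ((L : ℝ) * a - 1 / 8) (L * b - 1 / 8) ↔ a ≤ p.1 ∧ p.1 < b := by
  obtain ⟨m, q⟩ := p
  have h1 := T_range q (r m)
  have hL' : (4 : ℝ) ≤ L := by exact_mod_cast hL
  simp only [pos, Set.mem_Ico]
  constructor
  · rintro ⟨h2, h3⟩
    constructor
    · by_contra hlt
      push Not at hlt
      have h4 : (m : ℝ) + 1 ≤ a := by exact_mod_cast hlt
      nlinarith
    · by_contra hlt
      push Not at hlt
      have h4 : (b : ℝ) ≤ m := by exact_mod_cast hlt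
      nlinarith
  · rintro ⟨h2, h3⟩
    have h4 : (a : ℝ) ≤ m := by exact_mod_cast h2
    have h5 : (m : ℝ) + 1 ≤ b := by exact_mod_cast h3
    constructor <;> nlinarith

theorem ncard_neg (L : ℕ) (hL : 4 ≤ L) (r : ℤ → ℂ) (N : ℕ) :
    (Lam L r ∩ Set.Ico ((L : ℝ) * (-N : ℤ) - 1 / 8) (L * (0 : ℤ) - 1 / 8)).ncard = N * 4 := by
  have h1 : Lam L r ∩ Set.Ico ((L : ℝ) * (-N : ℤ) - 1 / 8) (L * (0 : ℤ) - 1 / 8) =
      pos L r '' (↑(Finset.Ico (-N : ℤ) 0 ×ˢ (Finset.univ.filter fun q : Fin 6 => q.1 < 4)) :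
        Set (ℤ × Fin 6)) := by
    ext x
    constructor
    · rintro ⟨⟨p, hp, rfl⟩, hx⟩
      rw [mem_window L hL] at hx
      refine ⟨p, ?_, rfl⟩
      simp only [Finset.coe_product, Set.mem_prod, Finset.mem_coe, Finset.mem_Ico,
        Finset.mem_filter, Finset.mem_univ, true_and]
      refine ⟨hx, ?_⟩
      rcases hp with hp | hp
      · exact hp
      · exact absurd hx.2 (not_lt.2 hp)
    · rintro ⟨p, hp, rfl⟩
      simp only [Finset.coe_product, Set.mem_prod, Finset.mem_coe, Finset.mem_Ico,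
        Finset.mem_filter, Finset.mem_univ, true_and] at hp
      exact ⟨⟨p, Or.inl hp.2, rfl⟩, (mem_window L hL r _ _ p).2 hp.1⟩
  rw [h1, Set.ncard_image_of_injective _ (pos_inj L hL r), Set.ncard_coe_finset,
    Finset.card_product, Int.card_Ico]
  congr 1
  simp

theorem ncard_pos (L : ℕ) (hL : 4 ≤ L) (r : ℤ → ℂ) (N : ℕ) :
    (Lam L r ∩ Set.Ico ((L : ℝ) * (0 : ℤ) - 1 / 8) (L * (N : ℤ) - 1 / 8)).ncard = N * 6 := by
  have h1 : Lam L r ∩ Set.Ico ((L : ℝ) * (0 : ℤ) - 1 / 8) (L * (N : ℤ) - 1 / 8) =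
      pos L r '' (↑(Finset.Ico (0 : ℤ) N ×ˢ (Finset.univ : Finset (Fin 6))) :
        Set (ℤ × Fin 6)) := by
    ext x
    constructor
    · rintro ⟨⟨p, hp, rfl⟩, hx⟩
      rw [mem_window L hL] at hx
      refine ⟨p, ?_, rfl⟩
      simp only [Finset.coe_product, Set.mem_prod, Finset.mem_coe, Finset.mem_Ico,
        Finset.mem_univ, and_true]
      exact hx
    · rintro ⟨p, hp, rfl⟩
      simp only [Finset.coe_product, Set.mem_prod, Finset.mem_coe, Finset.mem_Ico,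
        Finset.mem_univ, and_true] at hp
      exact ⟨⟨p, Or.inr hp.1, rfl⟩, (mem_window L hL r _ _ p).2 hp⟩
  rw [h1, Set.ncard_image_of_injective _ (pos_inj L hL r), Set.ncard_coe_finset,
    Finset.card_product, Int.card_Ico]
  simp

theorem bounded_density (L : ℕ) (hL : 4 ≤ L) (r : ℤ → ℂ) :
    ∃ M : ℕ, ∀ x : ℝ, (Lam L r ∩ Set.Ico x (x + 1)).encard ≤ (M : ℕ∞) := by
  refine ⟨12, fun x => ?_⟩
  have hL' : (4 : ℝ) ≤ L := by exact_mod_cast hL
  have hL0 : (0 : ℝ) < L := by linarith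
  set m₀ : ℤ := ⌊x / L⌋ with hm₀
  have h0 : (m₀ : ℝ) ≤ x / L := Int.floor_le _
  have h0' : x / L < m₀ + 1 := Int.lt_floor_add_one _
  rw [le_div_iff₀ hL0] at h0
  rw [div_lt_iff₀ hL0] at h0'
  have h1 : Lam L r ∩ Set.Ico x (x + 1) ⊆
      pos L r '' (↑(Finset.Icc m₀ (m₀ + 1) ×ˢ (Finset.univ : Finset (Fin 6))) :
        Set (ℤ × Fin 6)) := by
    rintro _ ⟨⟨⟨m, q⟩, -, rfl⟩, hx⟩
    refine ⟨(m, q), ?_, rfl⟩
    simp only [Finset.coe_product, Set.mem_prod, Finset.mem_coe, Finset.mem_Icc,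
      Finset.mem_univ, and_true]
    have h2 := T_range q (r m)
    simp only [pos, Set.mem_Ico] at hx
    constructor
    · by_contra hlt
      push Not at hlt
      have h4 : (m : ℝ) + 1 ≤ m₀ := by exact_mod_cast hlt
      nlinarith [hx.1, hx.2]
    · by_contra hlt
      push Not at hlt
      have h4 : (m₀ : ℝ) + 1 + 1 ≤ m := by exact_mod_cast hlt
      nlinarith [hx.1, hx.2]
  refine (Set.encard_le_encard h1).trans ((Set.encard_image_le _ _).trans ?_)
  rw [Set.encard_coe_eq_coe_finsetCard, Finset.card_product, Int.card_Icc]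
  have : (m₀ + 1 + 1 - m₀).toNat = 2 := by
    have : m₀ + 1 + 1 - m₀ = 2 := by ring
    rw [this]; rfl
  rw [this]
  simp

theorem not_uniform (L : ℕ) (hL : 4 ≤ L) (r : ℤ → ℂ) :
    ¬ ∃ D : ℝ, 0 < D ∧ ∀ ε : ℝ, 0 < ε → ∃ R : ℝ, 0 < R ∧ ∀ t : ℝ, R ≤ t → ∀ x : ℝ,
      |((Lam L r ∩ Set.Ico x (x + t)).ncard : ℝ) - D * t| ≤ ε * t := by
  rintro ⟨D, -, h⟩
  have hL' : (4 : ℝ) ≤ L := by exact_mod_cast hL
  have hL0 : (0 : ℝ) < L := by linarith
  obtain ⟨R, hR, h⟩ := h (1 / (2 * L)) (by positivity)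
  obtain ⟨N, hN⟩ := exists_nat_ge (max R 1)
  have hN1 : (1 : ℝ) ≤ N := (le_max_right _ _).trans hN
  have hNR : R ≤ N := (le_max_left _ _).trans hN
  have ht : R ≤ (L : ℝ) * N := by nlinarith
  have e1 := h (L * N) ht ((L : ℝ) * (-N : ℤ) - 1 / 8)
  have e2 := h (L * N) ht ((L : ℝ) * (0 : ℤ) - 1 / 8)
  have w1 : (L : ℝ) * (-N : ℤ) - 1 / 8 + L * N = L * (0 : ℤ) - 1 / 8 := by push_cast; ring
  have w2 : (L : ℝ) * (0 : ℤ) - 1 / 8 + L * N = L * (N : ℤ) - 1 / 8 := by push_cast; ring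
  rw [w1, ncard_neg L hL r N] at e1
  rw [w2, ncard_pos L hL r N] at e2
  have e3 : 1 / (2 * (L : ℝ)) * (L * N) = N / 2 := by field_simp
  rw [e3, abs_le] at e1 e2
  push_cast at e1 e2
  linarith [e1.1, e1.2, e2.1, e2.2]

end Pool.Agent.Work.MP_260e18_an
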