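import Pool.Agent.Work.MP_260e18_an.Sampling

open MeasureTheory Complex SchwartzMap FourierTransform
open scoped Real ContDiff BoundedContinuousFunction

namespace Pool.Agent.Work.MP_260e18_an

/-- Truncation to `[-1/4, 1/4]`. -/
noncomputable def clamp (x : ℝ) : ℝ := max (-(1 / 4)) (min x (1 / 4))

theorem clamp_mem (x : ℝ) : |clamp x| ≤ 1 / 4 := by
  rw [abs_le]
  constructor
  · exact le_max_left _ _
  · exact max_le (by norm_num) (min_le_right _ _)

theorem clamp_of_mem (x : ℝ) (hx : |x| ≤ 1 / 4) : clamp x = x := by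
  rw [abs_le] at hx
  rw [clamp, min_eq_left hx.2, max_eq_right hx.1]

theorem clamp_lip (x y : ℝ) : |clamp x - clamp y| ≤ |x - y| := by
  unfold clamp
  refine (abs_max_sub_max_le_max _ _ _ _).trans ?_
  rw [sub_self, abs_zero]
  refine max_le (abs_nonneg _) ?_
  refine (abs_min_sub_min_le_max _ _ _ _).trans ?_
  rw [sub_self, abs_zero]
  exact max_le le_rfl (abs_nonneg _)

/-- Local inverse of `x ↦ 2 sin (2πx)`. -/
noncomputable def g (x : ℝ) : ℝ := Real.arcsin (clamp x / 2) / (2 * π)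

theorem g_sin (x : ℝ) (hx : |x| ≤ 1 / 4) : 2 * Real.sin (2 * π * g x) = x := by
  have h1 : 2 * π * g x = Real.arcsin (clamp x / 2) := by
    rw [g]
    field_simp
  rw [abs_le] at hx
  rw [h1, clamp_of_mem x (abs_le.2 hx), Real.sin_arcsin (by linarith) (by linarith)]
  ring

theorem arcsin_bound (u : ℝ) (hu : |u| ≤ 1 / 8) : |Real.arcsin u| ≤ π / 8 := by
  have hpi := Real.pi_pos
  rw [abs_le] at hu ⊢
  have h0 : (1 / 8 : ℝ) ≤ Real.sin (π / 8) := by
    have := Real.mul_le_sin (x := π / 8) (by positivity) (by linarith)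
    have h2 : 2 / π * (π / 8) = 1 / 4 := by field_simp; norm_num
    rw [h2] at this
    linarith
  constructor
  · rw [neg_le, ← Real.arcsin_neg, Real.arcsin_le_iff_le_sin' ⟨by linarith, by linarith⟩]
    linarith
  · rw [Real.arcsin_le_iff_le_sin' ⟨by linarith, by linarith⟩]
    linarith

theorem g_bound (x : ℝ) : |g x| ≤ 1 / 16 := by
  have hpi := Real.pi_pos
  have h1 : |clamp x / 2| ≤ 1 / 8 := by
    rw [abs_div, abs_two]
    linarith [clamp_mem x]
  rw [g, abs_div, abs_of_pos (by positivity : (0 : ℝ) < 2 * π), div_le_iff₀ (by positivity)]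
  have := arcsin_bound _ h1
  linarith

theorem arcsin_lip (u v : ℝ) (hu : |u| ≤ 1 / 8) (hv : |v| ≤ 1 / 8) :
    |Real.arcsin u - Real.arcsin v| ≤ 2 * |u - v| := by
  rw [abs_le] at hu hv
  have h2 : ∀ x ∈ Set.Icc (-(1 / 8) : ℝ) (1 / 8), ‖deriv Real.arcsin x‖ ≤ 2 := by
    intro x hx
    rw [Real.deriv_arcsin]
    have h3 : (1 / 4 : ℝ) ≤ 1 - x ^ 2 := by nlinarith [hx.1, hx.2]
    have h4 : (1 / 2 : ℝ) ≤ √(1 - x ^ 2) := by
      rw [show (1 / 2 : ℝ) = √(1 / 4) by
        rw [show (1 / 4 : ℝ) = (1 / 2) ^ 2 by norm_num, Real.sqrt_sq (by norm_num)]]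
      exact Real.sqrt_le_sqrt h3
    rw [Real.norm_eq_abs, abs_of_pos (by positivity), div_le_iff₀ (by positivity)]
    linarith
  have h3 := Convex.norm_image_sub_le_of_norm_deriv_le (f := Real.arcsin)
    (s := Set.Icc (-(1 / 8) : ℝ) (1 / 8)) (C := 2) (x := v) (y := u)
    (fun x hx => Real.differentiableAt_arcsin.2 ⟨by linarith [hx.1], by linarith [hx.2]⟩)
    h2 (convex_Icc _ _) ⟨by linarith [hv.1], hv.2⟩ ⟨by linarith [hu.1], hu.2⟩
  simpa [Real.norm_eq_abs] using h3

theorem g_lip (x y : ℝ) : |g x - g y| ≤ |x - y| := by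
  have hpi := Real.pi_gt_three
  have h1 : |clamp x / 2| ≤ 1 / 8 := by
    rw [abs_div, abs_two]
    linarith [clamp_mem x]
  have h2 : |clamp y / 2| ≤ 1 / 8 := by
    rw [abs_div, abs_two]
    linarith [clamp_mem y]
  have h3 := arcsin_lip _ _ h1 h2
  have h4 : g x - g y = (Real.arcsin (clamp x / 2) - Real.arcsin (clamp y / 2)) / (2 * π) := by
    rw [g, g]; ring
  rw [h4, abs_div, abs_of_pos (by positivity : (0 : ℝ) < 2 * π), div_le_iff₀ (by positivity)]
  refine h3.trans ?_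
  have h5 : clamp x / 2 - clamp y / 2 = (clamp x - clamp y) / 2 := by ring
  rw [h5, abs_div, abs_two]
  have h6 := clamp_lip x y
  nlinarith [abs_nonneg (x - y)]

/-- Positions inside a cluster as functions of the complex parameter. -/
noncomputable def T (q : Fin 6) (z : ℂ) : ℝ :=
  ![g z.im, 1 / 2 - g z.im, 1 / 4 + g z.re, 3 / 4 - g z.re, 1, 3 / 2] q

theorem T_bound (q : Fin 6) (z : ℂ) : |T q z| ≤ 2 := by
  have h1 := abs_le.1 (g_bound z.im)
  have h2 := abs_le.1 (g_bound z.re)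
  fin_cases q <;> simp only [T, abs_le] <;> constructor <;> simp <;> linarith

theorem T_lip (q : Fin 6) (z w : ℂ) : |T q z - T q w| ≤ ‖z - w‖ := by
  have h1 : |g z.im - g w.im| ≤ ‖z - w‖ := (g_lip _ _).trans (by
    rw [← Complex.sub_im]; exact Complex.abs_im_le_norm _)
  have h2 : |g z.re - g w.re| ≤ ‖z - w‖ := (g_lip _ _).trans (by
    rw [← Complex.sub_re]; exact Complex.abs_re_le_norm _)
  fin_cases q
  · simpa [T] using h1
  · have : |g w.im - g z.im| ≤ ‖z - w‖ := by rw [abs_sub_comm]; exact h1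
    simpa [T] using this
  · simpa [T] using h2
  · have : |g w.re - g z.re| ≤ ‖z - w‖ := by rw [abs_sub_comm]; exact h2
    simpa [T] using this
  · simp [T]
  · simp [T]

/-- Presence of the `q`-th point in the `m`-th cluster. -/
noncomputable def cc (m : ℤ) (q : Fin 6) : ℂ := if q.1 < 4 ∨ 0 ≤ m then 1 else 0

theorem norm_cc_le (m : ℤ) (q : Fin 6) : ‖cc m q‖ ≤ 1 := by
  unfold cc; split_ifs <;> simp

/-- Twisted difference kernel. -/
noncomputable def psi (L : ℕ) (τ : ℝ) (j : ℝ) : ℂ :=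
  Complex.exp (↑(-2 * π * τ) * Complex.I) * (sig (j - τ / L) - sig j)

theorem exp_lip (s t : ℝ) : ‖Complex.exp (↑(-2 * π * s) * Complex.I) -
    Complex.exp (↑(-2 * π * t) * Complex.I)‖ ≤ 2 * π * |s - t| := by
  have h1 := Real.norm_exp_I_mul_ofReal_sub_one_le (x := -2 * π * (s - t))
  have h2 : Complex.exp (↑(-2 * π * s) * Complex.I) - Complex.exp (↑(-2 * π * t) * Complex.I) =
      Complex.exp (↑(-2 * π * t) * Complex.I) *
        (Complex.exp (Complex.I * ↑(-2 * π * (s - t))) - 1) := by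
    rw [mul_sub, ← Complex.exp_add, mul_one]
    congr 2
    push_cast
    ring
  rw [h2, norm_mul, Complex.norm_exp_ofReal_mul_I, one_mul]
  refine h1.trans (le_of_eq ?_)
  rw [Real.norm_eq_abs, abs_mul, abs_mul, abs_neg, abs_two, abs_of_pos Real.pi_pos]

theorem psi_bounds : ∃ A : ℝ, 0 < A ∧ ∀ L : ℕ, 2 ≤ L → ∀ (τ τ' j : ℝ), |τ| ≤ 2 → |τ'| ≤ 2 →
    ‖psi L τ j‖ ≤ A / L * (1 / (1 + j ^ 2)) ∧
    ‖psi L τ j - psi L τ' j‖ ≤ A / L * |τ - τ'| * (1 / (1 + j ^ 2)) := by
  obtain ⟨A, hA, h⟩ := schwartz_lip sig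
  have hpi := Real.pi_pos
  refine ⟨A * (4 * π + 2), by positivity, fun L hL τ τ' j hτ hτ' => ?_⟩
  have hL' : (2 : ℝ) ≤ L := by exact_mod_cast hL
  have hL0 : (0 : ℝ) < L := by linarith
  have hs : ∀ t : ℝ, |t| ≤ 2 → |t / L| ≤ 1 := by
    intro t ht
    rw [abs_div, abs_of_pos hL0, div_le_one hL0]
    linarith
  have e1 : ∀ t : ℝ, |t| ≤ 2 → ‖sig (j - t / L) - sig j‖ ≤ A * (2 / L) * (1 / (1 + j ^ 2)) := by
    intro t ht
    have h1 := h j (t / L) 0 (hs t ht) (by simp)
    rw [sub_zero] at h1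
    refine h1.trans ?_
    rw [sub_zero, mul_one_div]
    refine div_le_div_of_nonneg_right ?_ (by positivity)
    refine mul_le_mul_of_nonneg_left ?_ hA.le
    rw [abs_div, abs_of_pos hL0]
    exact div_le_div_of_nonneg_right ht hL0.le
  constructor
  · rw [psi, norm_mul, Complex.norm_exp_ofReal_mul_I, one_mul]
    refine (e1 τ hτ).trans ?_
    refine mul_le_mul_of_nonneg_right ?_ (by positivity)
    rw [mul_div_assoc']
    refine div_le_div_of_nonneg_right ?_ hL0.le
    nlinarith [mul_pos hA hpi]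
  · have h1 : psi L τ j - psi L τ' j =
        (Complex.exp (↑(-2 * π * τ) * Complex.I) - Complex.exp (↑(-2 * π * τ') * Complex.I)) *
          (sig (j - τ / L) - sig j) +
        Complex.exp (↑(-2 * π * τ') * Complex.I) * (sig (j - τ / L) - sig (j - τ' / L)) := by
      rw [psi, psi]; ring
    rw [h1]
    refine (norm_add_le _ _).trans ?_
    rw [norm_mul, norm_mul, Complex.norm_exp_ofReal_mul_I, one_mul]
    have h2 := h j (τ / L) (τ' / L) (hs _ hτ) (hs _ hτ')
    have h3 : |τ / L - τ' / L| = |τ - τ'| / L := by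
      rw [← sub_div, abs_div, abs_of_pos hL0]
    rw [h3] at h2
    have h4 := mul_le_mul (exp_lip τ τ') (e1 τ hτ) (norm_nonneg _) (by positivity)
    calc _ ≤ 2 * π * |τ - τ'| * (A * (2 / L) * (1 / (1 + j ^ 2))) +
          A * (|τ - τ'| / L) / (1 + j ^ 2) := add_le_add h4 h2
      _ = (A * (4 * π + 1)) / L * |τ - τ'| * (1 / (1 + j ^ 2)) := by ring
      _ ≤ _ := by
        refine mul_le_mul_of_nonneg_right ?_ (by positivity)
        refine mul_le_mul_of_nonneg_right ?_ (abs_nonneg _)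
        refine div_le_div_of_nonneg_right ?_ hL0.le
        nlinarith

/-- Total weight. -/
noncomputable def W : ℝ := ∑' j : ℤ, 1 / (1 + (j : ℝ) ^ 2)

theorem summable_w : Summable fun j : ℤ => 1 / (1 + (j : ℝ) ^ 2) := by
  simpa using summable_weight 0

theorem W_pos : 0 < W := by
  have h := summable_w.le_tsum (0 : ℤ) (fun j _ => by positivity)
  have : (1 : ℝ) ≤ W := by simpa [W] using h
  linarith

theorem hasSum_w (n : ℤ) : HasSum (fun m : ℤ => 1 / (1 + ((n - m : ℤ) : ℝ) ^ 2)) W := by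
  have h := summable_w.hasSum
  exact (Equiv.subLeft n).hasSum_iff.2 h

/-- The contribution of the `m`-th cluster to the `n`-th equation. -/
noncomputable def term (L : ℕ) (m : ℤ) (z : ℂ) (j : ℤ) : ℂ :=
  ∑ q : Fin 6, cc m q * psi L (T q z) (j : ℝ)

theorem term_bounds : ∃ A : ℝ, 0 < A ∧ ∀ L : ℕ, 2 ≤ L → ∀ (m j : ℤ) (z z' : ℂ),
    ‖term L m z j‖ ≤ A / L * (1 / (1 + (j : ℝ) ^ 2)) ∧
    ‖term L m z j - term L m z' j‖ ≤ A / L * ‖z - z'‖ * (1 / (1 + (j : ℝ) ^ 2)) := by
  obtain ⟨A, hA, h⟩ := psi_bounds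
  refine ⟨6 * A, by positivity, fun L hL m j z z' => ?_⟩
  have hL' : (2 : ℝ) ≤ L := by exact_mod_cast hL
  have hL0 : (0 : ℝ) < L := by linarith
  constructor
  · refine (norm_sum_le _ _).trans ?_
    have h1 : ∀ q ∈ (Finset.univ : Finset (Fin 6)), ‖cc m q * psi L (T q z) (j : ℝ)‖ ≤
        A / L * (1 / (1 + (j : ℝ) ^ 2)) := by
      intro q _
      rw [norm_mul]
      have h2 := (h L hL (T q z) (T q z) j (T_bound q z) (T_bound q z)).1
      calc _ ≤ 1 * (A / L * (1 / (1 + (j : ℝ) ^ 2))) :=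
            mul_le_mul (norm_cc_le m q) h2 (norm_nonneg _) zero_le_one
        _ = _ := one_mul _
    refine (Finset.sum_le_sum h1).trans (le_of_eq ?_)
    simp only [Finset.sum_const, Finset.card_univ, Fintype.card_fin]
    rw [nsmul_eq_mul]; push_cast; ring
  · have h0 : term L m z j - term L m z' j =
        ∑ q : Fin 6, cc m q * (psi L (T q z) (j : ℝ) - psi L (T q z') (j : ℝ)) := by
      rw [term, term, ← Finset.sum_sub_distrib]
      refine Finset.sum_congr rfl fun q _ => by ring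
    rw [h0]
    refine (norm_sum_le _ _).trans ?_
    have h1 : ∀ q ∈ (Finset.univ : Finset (Fin 6)),
        ‖cc m q * (psi L (T q z) (j : ℝ) - psi L (T q z') (j : ℝ))‖ ≤
        A / L * ‖z - z'‖ * (1 / (1 + (j : ℝ) ^ 2)) := by
      intro q _
      rw [norm_mul]
      have h2 := (h L hL (T q z) (T q z') j (T_bound q z) (T_bound q z')).2
      have h3 : A / L * |T q z - T q z'| * (1 / (1 + (j : ℝ) ^ 2)) ≤
          A / L * ‖z - z'‖ * (1 / (1 + (j : ℝ) ^ 2)) := by
        refine mul_le_mul_of_nonneg_right ?_ (by positivity)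
        exact mul_le_mul_of_nonneg_left (T_lip q z z') (by positivity)
      calc _ ≤ 1 * (A / L * ‖z - z'‖ * (1 / (1 + (j : ℝ) ^ 2))) :=
            mul_le_mul (norm_cc_le m q) (h2.trans h3) (norm_nonneg _) zero_le_one
        _ = _ := one_mul _
    refine (Finset.sum_le_sum h1).trans (le_of_eq ?_)
    simp only [Finset.sum_const, Finset.card_univ, Fintype.card_fin]
    rw [nsmul_eq_mul]; push_cast; ring

/-- Existence of the cluster parameters: a fixed point of the nonlinear system. -/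
theorem exists_fixed : ∃ (L : ℕ) (r : ℤ → ℂ), 4 ≤ L ∧ (∀ n, ‖r n‖ ≤ 1 / 4) ∧
    (∀ n : ℤ, Summable fun m : ℤ => ‖term L m (r m) (n - m)‖) ∧
    (∀ n : ℤ, r n = ∑' m : ℤ, term L m (r m) (n - m)) := by
  obtain ⟨A, hA, h⟩ := term_bounds
  have hW := W_pos
  obtain ⟨L, hL⟩ := exists_nat_ge (max 4 (4 * A * W))
  have hL4 : 4 ≤ L := by
    have : (4 : ℝ) ≤ L := (le_max_left _ _).trans hL
    exact_mod_cast this
  have hL2 : 2 ≤ L := by omega
  have hLA : 4 * A * W ≤ L := (le_max_right _ _).trans hL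
  have hL0 : (0 : ℝ) < L := by
    have : 0 < L := by omega
    exact_mod_cast this
  have hq : A / L * W ≤ 1 / 4 := by
    rw [div_mul_eq_mul_div, div_le_div_iff₀ hL0 (by norm_num)]
    linarith
  have hsum : ∀ (r : ℤ → ℂ) (n : ℤ), Summable fun m : ℤ => ‖term L m (r m) (n - m)‖ := by
    intro r n
    refine Summable.of_nonneg_of_le (fun m => norm_nonneg _)
      (fun m => (h L hL2 m (n - m) (r m) (r m)).1) ((hasSum_w n).summable.mul_left _)
  have hbd : ∀ (r : ℤ → ℂ) (n : ℤ), ‖∑' m : ℤ, term L m (r m) (n - m)‖ ≤ 1 / 4 := by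
    intro r n
    refine le_trans ?_ hq
    refine tsum_of_norm_bounded ((hasSum_w n).mul_left (A / L)) fun m => ?_
    exact (h L hL2 m (n - m) (r m) (r m)).1
  let Ψ : (ℤ →ᵇ ℂ) → (ℤ →ᵇ ℂ) := fun r =>
    BoundedContinuousFunction.ofNormedAddCommGroupDiscrete
      (fun n => ∑' m : ℤ, term L m (r m) (n - m)) (1 / 4) (hbd r)
  have hΨ : ∀ r n, Ψ r n = ∑' m : ℤ, term L m (r m) (n - m) := fun r n => rfl
  have hcontr : ContractingWith (1 / 4) Ψ := by
    refine ⟨by
      rw [← NNReal.coe_lt_coe]; norm_num, ?_⟩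
    refine LipschitzWith.of_dist_le_mul fun r r' => ?_
    rw [BoundedContinuousFunction.dist_le (by positivity)]
    intro n
    rw [dist_eq_norm, hΨ, hΨ, ← Summable.tsum_sub (hsum r n).of_norm (hsum r' n).of_norm]
    have h1 : ‖∑' m : ℤ, (term L m (r m) (n - m) - term L m (r' m) (n - m))‖ ≤
        A / L * dist r r' * W := by
      refine tsum_of_norm_bounded ((hasSum_w n).mul_left (A / L * dist r r')) fun m => ?_
      refine (h L hL2 m (n - m) (r m) (r' m)).2.trans ?_
      refine mul_le_mul_of_nonneg_right ?_ (by positivity)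
      refine mul_le_mul_of_nonneg_left ?_ (by positivity)
      rw [← dist_eq_norm]
      exact BoundedContinuousFunction.dist_coe_le_dist m
    refine h1.trans ?_
    have h2 : A / L * dist r r' * W = (A / L * W) * dist r r' := by ring
    rw [h2]
    refine mul_le_mul_of_nonneg_right ?_ dist_nonneg
    refine hq.trans ?_
    simp
  let r := hcontr.fixedPoint Ψ
  have hr : Ψ r = r := hcontr.fixedPoint_isFixedPt
  have hr' : ∀ n : ℤ, r n = ∑' m : ℤ, term L m (r m) (n - m) := by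
    intro n
    conv_lhs => rw [← hr]
    exact hΨ r n
  refine ⟨L, r, hL4, fun n => ?_, hsum r, hr'⟩
  rw [hr' n]
  exact hbd r n

end Pool.Agent.Work.MP_260e18_an
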