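import Mathlib

open MeasureTheory Complex SchwartzMap FourierTransform
open scoped Real ContDiff

namespace Pool.Agent.Work.MP_260e18_an

/-- Quadratic decay of Schwartz functions. -/
theorem schwartz_bound (f : 𝓢(ℝ, ℂ)) : ∃ A : ℝ, 0 < A ∧ ∀ x : ℝ, ‖f x‖ ≤ A / (1 + x ^ 2) := by
  obtain ⟨A, hA, h1⟩ := f.decay 0 0
  obtain ⟨B, hB, h2⟩ := f.decay 2 0
  refine ⟨A + B, by positivity, fun x => ?_⟩
  have e1 := h1 x
  have e2 := h2 x
  rw [norm_iteratedFDeriv_zero] at e1 e2
  rw [pow_zero, one_mul] at e1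
  rw [Real.norm_eq_abs, sq_abs] at e2
  rw [le_div_iff₀ (by positivity)]
  nlinarith

/-- Lipschitz bound with decay for Schwartz functions. -/
theorem schwartz_lip (f : 𝓢(ℝ, ℂ)) : ∃ A : ℝ, 0 < A ∧ ∀ u s t : ℝ, |s| ≤ 1 → |t| ≤ 1 →
    ‖f (u - s) - f (u - t)‖ ≤ A * |s - t| / (1 + u ^ 2) := by
  obtain ⟨A, hA, h1⟩ := schwartz_bound (SchwartzMap.derivCLM ℂ ℂ f)
  refine ⟨3 * A, by positivity, fun u s t hs ht => ?_⟩
  have h2 : ∀ x ∈ Set.Icc (u - 1) (u + 1), ‖deriv f x‖ ≤ 3 * A / (1 + u ^ 2) := by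
    intro x hx
    have h3 := h1 x
    rw [SchwartzMap.derivCLM_apply] at h3
    refine h3.trans ?_
    rw [div_le_div_iff₀ (by positivity) (by positivity)]
    have h4 : 1 + u ^ 2 ≤ 3 * (1 + x ^ 2) := by
      have h5 : |u - x| ≤ 1 := by
        rw [abs_le]; constructor <;> linarith [hx.1, hx.2]
      have h6 : (u - x) ^ 2 ≤ 1 := by
        rw [← sq_abs]; nlinarith [abs_nonneg (u - x)]
      nlinarith [sq_nonneg (u - 2 * x)]
    nlinarith
  have h3 := Convex.norm_image_sub_le_of_norm_deriv_le (f := f) (s := Set.Icc (u - 1) (u + 1))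
    (C := 3 * A / (1 + u ^ 2)) (x := u - t) (y := u - s)
    (fun x _ => f.differentiableAt) h2 (convex_Icc _ _)
    ⟨by linarith [(abs_le.1 ht).2], by linarith [(abs_le.1 ht).1]⟩
    ⟨by linarith [(abs_le.1 hs).2], by linarith [(abs_le.1 hs).1]⟩
  refine h3.trans (le_of_eq ?_)
  have h4 : ‖(u - s) - (u - t)‖ = |s - t| := by
    rw [Real.norm_eq_abs, ← abs_neg]; congr 1; ring
  rw [h4]; ring

/-- The weight sequence. -/
theorem summable_weight (y : ℝ) : Summable fun n : ℤ => 1 / (1 + ((n : ℝ) + y) ^ 2) := by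
  have h1 : Summable fun n : ℤ => (1 / (n : ℝ) ^ 2) := Real.summable_one_div_int_pow.2 one_lt_two
  have h2 : Summable fun n : ℤ => (if n = 0 then (1 : ℝ) else 0) :=
    (hasSum_ite_eq (0 : ℤ) (1 : ℝ)).summable
  have h3 := (h1.add h2).mul_left (2 * (1 + y ^ 2))
  refine Summable.of_nonneg_of_le (fun n => by positivity) (fun n => ?_) h3
  have h4 : 1 / (1 + ((n : ℝ) + y) ^ 2) ≤ 2 * (1 + y ^ 2) * (1 / (1 + (n : ℝ) ^ 2)) := by
    rw [mul_one_div, div_le_div_iff₀ (by positivity) (by positivity)]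
    nlinarith [sq_nonneg ((n : ℝ) + 2 * y), sq_nonneg y, sq_nonneg ((n : ℝ) + y),
      mul_nonneg (sq_nonneg y) (sq_nonneg ((n : ℝ) + y))]
  refine h4.trans (mul_le_mul_of_nonneg_left ?_ (by positivity))
  by_cases hn : n = 0
  · simp [hn]
  · have hn' : 0 < (n : ℝ) ^ 2 := by positivity
    simp only [hn, if_false, add_zero]
    exact one_div_le_one_div_of_le hn' (by linarith)

/-- The cut-off function equal to one on the spectral window. -/
noncomputable def bumpOut : ContDiffBump (0 : ℝ) := ⟨1 / 4, 3 / 4, by norm_num, by norm_num⟩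

/-- The spectral bump. -/
noncomputable def bumpIn : ContDiffBump (0 : ℝ) := ⟨1 / 8, 1 / 4, by norm_num, by norm_num⟩

noncomputable def toS (b : ContDiffBump (0 : ℝ)) : 𝓢(ℝ, ℂ) :=
  HasCompactSupport.toSchwartzMap (f := fun x => (b x : ℂ))
    (b.hasCompactSupport.comp_left (g := fun x : ℝ => (x : ℂ)) (by simp))
    (Complex.ofRealCLM.contDiff.comp b.contDiff)

theorem toS_apply (b : ContDiffBump (0 : ℝ)) (x : ℝ) : toS b x = (b x : ℂ) := rfl

/-- The Fourier transform of the cut-off. -/
noncomputable def sig : 𝓢(ℝ, ℂ) := 𝓕 (toS bumpOut)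

/-- The band-limited kernel. -/
noncomputable def ker : 𝓢(ℝ, ℂ) := 𝓕 (toS bumpIn)

theorem sig_apply (w : ℝ) :
    sig w = ∫ v : ℝ, Complex.exp (↑(-2 * π * v * w) * Complex.I) * toS bumpOut v := by
  rw [sig, SchwartzMap.fourier_coe, Real.fourier_real_eq_integral_exp_smul]
  rfl

theorem ker_apply (w : ℝ) :
    ker w = ∫ v : ℝ, Complex.exp (↑(-2 * π * v * w) * Complex.I) * toS bumpIn v := by
  rw [ker, SchwartzMap.fourier_coe, Real.fourier_real_eq_integral_exp_smul]
  rfl

theorem summable_sig (y : ℝ) : Summable fun n : ℤ => ‖sig (y + n)‖ := by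
  obtain ⟨A, hA, h⟩ := schwartz_bound sig
  refine Summable.of_nonneg_of_le (fun n => norm_nonneg _) (fun n => h _) ?_
  refine ((summable_weight y).mul_left A).congr fun n => ?_
  rw [mul_one_div, add_comm y]

/-- Expansion of the character `t ↦ exp (-2πiyt)` in integer frequencies on the spectral window. -/
theorem exp_expansion (y t : ℝ) (ht : |t| ≤ 1 / 4) :
    ∑' n : ℤ, sig (y + n) * Complex.exp (↑(2 * π * n * t) * Complex.I) =
      Complex.exp (↑(-2 * π * y * t) * Complex.I) := by
  set f : ℝ → ℂ := fun t => Complex.exp (↑(-2 * π * y * t) * Complex.I) * toS bumpOut t with hf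
  have hc : Continuous f := by
    refine Continuous.mul ?_ (toS bumpOut).continuous
    fun_prop
  have hnorm : ∀ t, ‖f t‖ = ‖toS bumpOut t‖ := by
    intro t
    rw [hf]
    simp only [norm_mul]
    rw [Complex.norm_exp_ofReal_mul_I, one_mul]
  have hO : Asymptotics.IsBigO (Filter.cocompact ℝ) f fun x : ℝ => |x| ^ (-2 : ℝ) := by
    have h1 := (toS bumpOut).isBigO_cocompact_rpow (-2)
    refine Asymptotics.IsBigO.trans (Asymptotics.isBigO_of_le _ fun x => ?_) h1
    rw [hnorm]
  have hF : ∀ n : ℤ, 𝓕 f n = sig (y + n) := by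
    intro n
    rw [Real.fourier_real_eq_integral_exp_smul, sig_apply]
    congr 1
    ext v
    rw [hf, smul_eq_mul, ← mul_assoc, ← Complex.exp_add]
    congr 2
    push_cast
    ring
  have hS : Summable fun n : ℤ => 𝓕 f n := by
    simp_rw [hF]
    exact (summable_sig y).of_norm
  have key := Real.tsum_eq_tsum_fourier_of_rpow_decay_of_summable hc one_lt_two hO hS t
  have hlhs : ∑' n : ℤ, f (t + n) = f t := by
    rw [tsum_eq_single 0]
    · simp
    · intro n hn
      rw [hf]
      simp only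
      rw [toS_apply, bumpOut.zero_of_le_dist]
      · simp
      · rw [dist_zero_right, Real.norm_eq_abs]
        change (3 / 4 : ℝ) ≤ |t + n|
        have h1 : (1 : ℝ) ≤ |(n : ℝ)| := by
          have := Int.one_le_abs hn
          exact_mod_cast this
        have h2 : |(n : ℝ)| ≤ |t + n| + |t| := by
          have : (n : ℝ) = (t + n) - t := by ring
          calc |(n : ℝ)| = |(t + n) - t| := by rw [← this]
            _ ≤ _ := abs_sub _ _
        linarith
  rw [hlhs] at key
  have hft : f t = Complex.exp (↑(-2 * π * y * t) * Complex.I) := by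
    rw [hf]
    simp only
    rw [toS_apply, bumpOut.one_of_mem_closedBall]
    · simp
    · rw [Metric.mem_closedBall, dist_zero_right, Real.norm_eq_abs]
      exact ht
  rw [← hft, key]
  congr 1
  ext n
  rw [hF, fourier_coe_apply]
  congr 2
  push_cast
  ring

theorem toS_bumpIn_eq_zero (t : ℝ) (ht : ¬ |t| ≤ 1 / 4) : toS bumpIn t = 0 := by
  rw [toS_apply, bumpIn.zero_of_le_dist]
  · simp
  · rw [dist_zero_right, Real.norm_eq_abs]
    change (1 / 4 : ℝ) ≤ |t|
    linarith

/-- Oversampling identity for the band-limited kernel. -/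
theorem hasSum_sampling (x y : ℝ) :
    HasSum (fun n : ℤ => sig (y + n) * ker (x - n)) (ker (x + y)) := by
  have hint : ∀ n : ℤ, Integrable (fun v : ℝ => sig (y + n) *
      (Complex.exp (↑(-2 * π * v * (x - n)) * Complex.I) * toS bumpIn v)) := by
    intro n
    refine Integrable.const_mul ?_ _
    refine (toS bumpIn).integrable.norm.mono' ?_ ?_
    · refine (Continuous.aestronglyMeasurable ?_)
      refine Continuous.mul ?_ (toS bumpIn).continuous
      fun_prop
    · refine Filter.Eventually.of_forall fun v => ?_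
      rw [norm_mul]
      have : ‖Complex.exp (↑(-2 * π * v * (x - n)) * Complex.I)‖ = 1 :=
        Complex.norm_exp_ofReal_mul_I _
      rw [this, one_mul]
  have hnorm : ∀ n : ℤ, ∫ v : ℝ, ‖sig (y + n) *
      (Complex.exp (↑(-2 * π * v * (x - n)) * Complex.I) * toS bumpIn v)‖ =
      ‖sig (y + n)‖ * ∫ v : ℝ, ‖toS bumpIn v‖ := by
    intro n
    rw [← integral_const_mul]
    congr 1
    ext v
    rw [norm_mul, norm_mul]
    have : ‖Complex.exp (↑(-2 * π * v * (x - n)) * Complex.I)‖ = 1 :=
      Complex.norm_exp_ofReal_mul_I _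
    rw [this, one_mul]
  have hsum : Summable fun n : ℤ => ∫ v : ℝ, ‖sig (y + n) *
      (Complex.exp (↑(-2 * π * v * (x - n)) * Complex.I) * toS bumpIn v)‖ := by
    simp_rw [hnorm]
    exact (summable_sig y).mul_right _
  have key := hasSum_integral_of_summable_integral_norm hint hsum
  have h1 : ∀ n : ℤ, ∫ v : ℝ, sig (y + n) *
      (Complex.exp (↑(-2 * π * v * (x - n)) * Complex.I) * toS bumpIn v) =
      sig (y + n) * ker (x - n) := by
    intro n
    rw [integral_const_mul, ker_apply]
  have h2 : ∫ v : ℝ, ∑' n : ℤ, sig (y + n) *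
      (Complex.exp (↑(-2 * π * v * (x - n)) * Complex.I) * toS bumpIn v) = ker (x + y) := by
    rw [ker_apply]
    congr 1
    ext v
    by_cases hv : |v| ≤ 1 / 4
    · have h3 := exp_expansion y v hv
      have h4 : ∀ n : ℤ, sig (y + n) *
          (Complex.exp (↑(-2 * π * v * (x - n)) * Complex.I) * toS bumpIn v) =
          (sig (y + n) * Complex.exp (↑(2 * π * n * v) * Complex.I)) *
            (Complex.exp (↑(-2 * π * v * x) * Complex.I) * toS bumpIn v) := by
        intro n
        have h5 : Complex.exp (↑(-2 * π * v * (x - n)) * Complex.I) =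
            Complex.exp (↑(2 * π * n * v) * Complex.I) *
              Complex.exp (↑(-2 * π * v * x) * Complex.I) := by
          rw [← Complex.exp_add]
          congr 1
          push_cast
          ring
        rw [h5]
        ring
      simp_rw [h4]
      rw [tsum_mul_right, h3, ← mul_assoc, ← Complex.exp_add]
      congr 2
      push_cast
      ring
    · have h3 := toS_bumpIn_eq_zero v hv
      simp [h3]
  simp_rw [h1] at key
  rwa [h2] at key

end Pool.Agent.Work.MP_260e18_an
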